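import Pool.Agent.MG.H2.FinI

/-!
# Regular functions on the cotangent bundle of the moduli of stable pointed curves of genus two

Every regular function on `T^*M̄_{2,n}` is constant: it has the same value `c ∈ ℂ` at all covectors
of all smooth pointed curves of genus two, and the Krull dimension of `R_{2,n}` is zero.
-/

open CategoryTheory AlgebraicGeometry

namespace Pool.Agent.Results.MP_cc45c1_ag.GenusTwo

open Pool.Agent.MG Pool.Agent.MG.Std

theorem result (n : ℕ) :
    (∀ F : Std.Reg 2 n, ∃ c : ℂ, ∀ (k : Type) [Field k] [IsAlgClosed k] [Algebra ℂ k]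
      (C : Fam n k) (hC : Std.IsStable 2 C) (_ : Smooth C.π) (l : Std.Cov 2 C),
      F.F k C hC l = algebraMap ℂ k c) ∧ Std.Answer 2 n 0 :=
  ⟨fun F => H2.all_std n F, (H2.rigid n).answer⟩

end Pool.Agent.Results.MP_cc45c1_ag.GenusTwo
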