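import Pool.Agent.M0n.Four

/-!
# MP_cc45c1_ag: the Krull dimension of `R_{0,n} = O(T^* M̄_{0,n})` for every `n ≥ 3`

`n = m + 3`.  `M0n.Reg m` is the ring `R_{0,n}`, see `Pool.Agent.M0n.Defs`.  Its Krull dimension
is `0, 2, 4, 0, 0, 0, …` for `n = 3, 4, 5, 6, 7, 8, …`, and `R_{0,n} = ℂ` for `n ≥ 6`.

Method for `n ≥ 6`: by the valuative criterion a tensor `f` takes a value in a valuation ring `O`
of the function field at every differential of a polynomial in the cross ratios in `O`.  So `f` is
a polynomial in the `t_i` and `p_i`, and, with `y_i = t_i p_i`, its part of weight `χ` is divisible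
by `(∑_{i ∈ I} y_i) ^ |∑_{i ∈ I} χ_i|` for every `I` (the boundary divisors which separate `0` and
`∞`); the same at `1` in place of `0`.  Let `B` be the coefficient of the highest power `p_0 ^ κ`.
The four divisors `I = {0}, {0, 1}, {0, 2, …}, {0, 1, 2, …}` show that `B` is divisible by
`x ^ (κ / 2)` and `(x - 1) ^ (κ / 2)`, `x = t_0`, with quotient quasi-homogeneous at `0` and at
`1`, hence independent of `x` and invariant under the translations of the other `t_i`; as it
vanishes on `∑_{i > 0} t_i p_i = 0`, it is zero unless `κ = 0`.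

For `n = 5` four quadratic tensors (`(z_i - z_j) ^ 2 p_i p_j`, the quadratic Gaudin Hamiltonians)
and for `n = 4` two vector fields give a chain of prime ideals of length `2 (n - 3)`.
-/

set_option autoImplicit false

namespace Pool.Agent.Results.MP_cc45c1_ag.GenusZero

/-- The Krull dimension of `R_{0,n}`, `n = m + 3`, is `2` for `n = 4`, `4` for `n = 5` and `0` for
all other `n`; `R_{0,n} = ℂ` for `n ≥ 6`. -/
theorem result (m : ℕ) :
    ringKrullDim (M0n.Reg m) = (if m = 1 then 2 else if m = 2 then 4 else 0) ∧
      (3 ≤ m → M0n.Reg m = ⊥) :=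
  ⟨M0n.krull_all m, fun hm => M0n.reg_eq_bot hm⟩

end Pool.Agent.Results.MP_cc45c1_ag.GenusZero
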