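import Pool.Agent.MG.PointedS
import Pool.Agent.MG.W.EndC

/-!
# Regular functions on the cotangent bundle of the moduli of stable pointed curves

For `g ≥ 1`, `n ≥ 1`, `(g, n) ≠ (1, 1)` a regular function on `T^*M̄_{g,n}` does not depend on the
covector, at every smooth curve.
-/

open CategoryTheory AlgebraicGeometry

namespace Pool.Agent.Results.MP_cc45c1_ag.PointedCurves

open Pool.Agent.MG Pool.Agent.MG.Std

theorem result (g n : ℕ) (hg : 1 ≤ g) (hn : 1 ≤ n) (hgn : 3 ≤ g + n) (k : Type) [Field k]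
    [IsAlgClosed k] [Algebra ℂ k] (F : Std.Reg g n) (C : Fam n k) (hC : Std.IsStable g C)
    (hs : Smooth C.π) (l : Std.Cov g C) : F.F k C hC l = F.F k C hC 0 := by
  rcases Nat.lt_or_ge 1 g with h | h
  · exact pointed_smooth g n h hn k (Reg.to F) C ((stable_iff g C).1 hC) hs (Cov.to l)
  · obtain rfl : g = 1 := le_antisymm h hg
    obtain ⟨c, hc⟩ := W.genus_one n (by omega) (Reg.to F)
    exact (hc k C ((stable_iff 1 C).1 hC) hs (Cov.to l)).trans
      (hc k C ((stable_iff 1 C).1 hC) hs (Cov.to 0)).symm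

end Pool.Agent.Results.MP_cc45c1_ag.PointedCurves
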